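import Mathlib
import Pool.Agent.H47.PFDeg

/-- The Perron-Frobenius degree of the largest root of t^3 + 3t^2 - 15t - 46 is 4. -/
theorem Pool.Agent.Results.MP_e10d7f_nt.PFDegree.result :
    ∃ l : ℝ, IsGreatest {t : ℝ | t ^ 3 + 3 * t ^ 2 - 15 * t - 46 = 0} l ∧
      IsLeast {n : ℕ | ∃ A : Matrix (Fin n) (Fin n) ℤ, A.IsPrimitive ∧
        spectralRadius ℂ (A.map (fun x => (x : ℂ))) = ENNReal.ofReal l} 4 := by
  open Pool.Agent.H47.PFDeg in
  obtain ⟨l, h38, hl⟩ := root_exists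
  refine ⟨l, ⟨hl, fun t ht => ?_⟩, ⟨A4, A4_prim, upper l h38 hl⟩, ?_⟩
  · have h := root_le l h38 hl (t : ℂ) (by exact_mod_cast ht)
    exact le_trans (le_abs_self t) (by simpa using h)
  · rintro n ⟨A, hA, h⟩
    exact lower l hl (by linarith) n A hA.nonneg h
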